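import Mathlib

/-!
# MP_993212_an: the open pair `[[1, 4], [3, 1]]`, `[[1, 12], [1, 1]]` is strong shift equivalent
-/

set_option autoImplicit false

namespace Pool.Agent.Results.MP_993212_an.OpenTestPair

open Matrix

/-- Elementary equivalence of square matrices over `ℕ`: `A = R S`, `B = S R` for rectangular
matrices `R`, `S` over `ℕ`. -/
def Elem (X Y : Σ n : ℕ, Matrix (Fin n) (Fin n) ℕ) : Prop :=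
  ∃ (R : Matrix (Fin X.1) (Fin Y.1) ℕ) (S : Matrix (Fin Y.1) (Fin X.1) ℕ),
    X.2 = R * S ∧ Y.2 = S * R

/-- Strong shift equivalence over `ℕ` (a finite chain of elementary equivalences). -/
def SSE {n m : ℕ} (A : Matrix (Fin n) (Fin n) ℕ) (B : Matrix (Fin m) (Fin m) ℕ) : Prop :=
  Relation.TransGen Elem ⟨n, A⟩ ⟨m, B⟩

theorem step1 : Elem
    ⟨2, !![1, 4; 3, 1]⟩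
    ⟨3, !![1, 4, 4; 1, 0, 0; 2, 1, 1]⟩ :=
  ⟨!![1, 0, 0; 0, 1, 1],
    !![1, 4; 1, 0; 2, 1], by decide +kernel, by decide +kernel⟩

theorem step2 : Elem
    ⟨3, !![1, 4, 4; 1, 0, 0; 2, 1, 1]⟩
    ⟨4, !![0, 0, 0, 1; 1, 1, 4, 3; 1, 1, 0, 0; 2, 2, 1, 1]⟩ :=
  ⟨!![1, 1, 0, 0; 0, 0, 1, 0; 0, 0, 0, 1],
    !![0, 0, 1; 1, 4, 3; 1, 0, 0; 2, 1, 1], by decide +kernel, by decide +kernel⟩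

theorem step3 : Elem
    ⟨4, !![0, 0, 0, 1; 1, 1, 4, 3; 1, 1, 0, 0; 2, 2, 1, 1]⟩
    ⟨4, !![1, 2, 1, 4; 2, 1, 4, 2; 0, 1, 0, 2; 1, 0, 0, 0]⟩ :=
  ⟨!![0, 0, 0, 1; 0, 1, 0, 1; 0, 0, 1, 0; 1, 0, 0, 0],
    !![2, 2, 1, 1; 1, 1, 4, 2; 1, 1, 0, 0; 0, 0, 0, 1], by decide +kernel, by decide +kernel⟩

theorem step4 : Elem
    ⟨4, !![1, 2, 1, 4; 2, 1, 4, 2; 0, 1, 0, 2; 1, 0, 0, 0]⟩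
    ⟨4, !![1, 4, 1, 3; 1, 0, 0, 3; 2, 1, 1, 6; 0, 0, 1, 0]⟩ :=
  ⟨!![0, 0, 1, 0; 1, 0, 0, 1; 0, 1, 0, 0; 0, 0, 0, 1],
    !![1, 1, 4, 2; 0, 1, 0, 2; 1, 2, 1, 4; 1, 0, 0, 0], by decide +kernel, by decide +kernel⟩

theorem step5 : Elem
    ⟨4, !![1, 4, 1, 3; 1, 0, 0, 3; 2, 1, 1, 6; 0, 0, 1, 0]⟩
    ⟨4, !![0, 0, 1, 0; 4, 1, 0, 4; 8, 2, 1, 1; 4, 1, 0, 0]⟩ :=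
  ⟨!![1, 1, 0, 0; 0, 0, 0, 1; 0, 0, 1, 0; 1, 0, 0, 0],
    !![0, 0, 1, 0; 1, 4, 0, 3; 2, 1, 1, 6; 1, 0, 0, 3], by decide +kernel, by decide +kernel⟩

theorem step6 : Elem
    ⟨4, !![0, 0, 1, 0; 4, 1, 0, 4; 8, 2, 1, 1; 4, 1, 0, 0]⟩
    ⟨4, !![1, 2, 1, 7; 0, 1, 4, 0; 1, 1, 0, 4; 1, 0, 0, 0]⟩ :=
  ⟨!![1, 0, 0, 0; 0, 1, 4, 0; 1, 2, 1, 7; 0, 1, 0, 4],
    !![0, 0, 1, 0; 0, 1, 0, 0; 1, 0, 0, 1; 1, 0, 0, 0], by decide +kernel, by decide +kernel⟩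

theorem step7 : Elem
    ⟨4, !![1, 2, 1, 7; 0, 1, 4, 0; 1, 1, 0, 4; 1, 0, 0, 0]⟩
    ⟨4, !![0, 3, 1, 1; 1, 0, 1, 0; 1, 4, 1, 1; 0, 0, 4, 1]⟩ :=
  ⟨!![1, 0, 1, 0; 0, 0, 0, 1; 0, 0, 1, 0; 0, 1, 0, 0],
    !![0, 1, 1, 3; 1, 0, 0, 0; 1, 1, 0, 4; 0, 1, 4, 0], by decide +kernel, by decide +kernel⟩

theorem step8 : Elem
    ⟨4, !![0, 3, 1, 1; 1, 0, 1, 0; 1, 4, 1, 1; 0, 0, 4, 1]⟩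
    ⟨4, !![0, 1, 1, 0; 4, 0, 1, 1; 3, 0, 0, 1; 4, 3, 1, 2]⟩ :=
  ⟨!![3, 0, 0, 1; 0, 1, 1, 0; 4, 0, 1, 1; 0, 3, 0, 1],
    !![0, 1, 0, 0; 0, 0, 1, 0; 1, 0, 0, 0; 0, 0, 1, 1], by decide +kernel, by decide +kernel⟩

theorem step9 : Elem
    ⟨4, !![0, 1, 1, 0; 4, 0, 1, 1; 3, 0, 0, 1; 4, 3, 1, 2]⟩
    ⟨4, !![2, 2, 2, 4; 0, 0, 1, 1; 1, 2, 0, 0; 1, 3, 1, 0]⟩ :=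
  ⟨!![0, 0, 1, 1; 1, 3, 1, 0; 1, 2, 0, 0; 2, 2, 1, 3],
    !![1, 0, 0, 1; 1, 0, 0, 0; 0, 0, 1, 0; 0, 1, 0, 0], by decide +kernel, by decide +kernel⟩

theorem step10 : Elem
    ⟨4, !![2, 2, 2, 4; 0, 0, 1, 1; 1, 2, 0, 0; 1, 3, 1, 0]⟩
    ⟨5, !![0, 1, 1, 1, 3; 0, 0, 1, 1, 2; 2, 1, 1, 1, 1; 2, 1, 1, 1, 1; 1, 1, 0, 0, 0]⟩ :=
  ⟨!![0, 0, 1, 1, 0; 0, 0, 0, 0, 1; 0, 1, 0, 0, 0; 1, 0, 0, 0, 0],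
    !![1, 3, 1, 0; 1, 2, 0, 0; 1, 1, 1, 2; 1, 1, 1, 2; 0, 0, 1, 1], by decide +kernel, by decide +kernel⟩

theorem step11 : Elem
    ⟨5, !![0, 1, 1, 1, 3; 0, 0, 1, 1, 2; 2, 1, 1, 1, 1; 2, 1, 1, 1, 1; 1, 1, 0, 0, 0]⟩
    ⟨4, !![0, 2, 0, 2; 1, 2, 2, 1; 1, 2, 0, 3; 1, 0, 1, 0]⟩ :=
  ⟨!![0, 0, 1, 0; 1, 0, 0, 0; 0, 1, 0, 0; 0, 1, 0, 0; 0, 0, 0, 1],
    !![0, 0, 1, 1, 2; 2, 1, 1, 1, 1; 0, 1, 1, 1, 3; 1, 1, 0, 0, 0], by decide +kernel, by decide +kernel⟩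

theorem step12 : Elem
    ⟨4, !![0, 2, 0, 2; 1, 2, 2, 1; 1, 2, 0, 3; 1, 0, 1, 0]⟩
    ⟨5, !![0, 0, 0, 1, 1; 0, 0, 0, 1, 1; 1, 1, 0, 2, 3; 1, 1, 2, 2, 1; 1, 1, 1, 0, 0]⟩ :=
  ⟨!![1, 1, 0, 0, 0; 0, 0, 0, 1, 0; 0, 0, 1, 0, 0; 0, 0, 0, 0, 1],
    !![0, 1, 0, 1; 0, 1, 0, 1; 1, 2, 0, 3; 1, 2, 2, 1; 1, 0, 1, 0], by decide +kernel, by decide +kernel⟩

theorem step13 : Elem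
    ⟨5, !![0, 0, 0, 1, 1; 0, 0, 0, 1, 1; 1, 1, 0, 2, 3; 1, 1, 2, 2, 1; 1, 1, 1, 0, 0]⟩
    ⟨4, !![0, 3, 2, 2; 1, 0, 0, 2; 2, 1, 2, 2; 0, 1, 1, 0]⟩ :=
  ⟨!![0, 0, 0, 1; 0, 0, 0, 1; 1, 0, 0, 0; 0, 0, 1, 0; 0, 1, 0, 0],
    !![1, 1, 0, 2, 3; 1, 1, 1, 0, 0; 1, 1, 2, 2, 1; 0, 0, 0, 1, 1], by decide +kernel, by decide +kernel⟩

theorem step14 : Elem
    ⟨4, !![0, 3, 2, 2; 1, 0, 0, 2; 2, 1, 2, 2; 0, 1, 1, 0]⟩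
    ⟨4, !![1, 2, 3, 0; 2, 0, 4, 3; 1, 0, 1, 1; 0, 1, 2, 0]⟩ :=
  ⟨!![0, 1, 0, 0; 0, 0, 0, 1; 1, 0, 1, 0; 0, 0, 1, 0],
    !![2, 0, 1, 2; 0, 3, 2, 2; 0, 1, 1, 0; 1, 0, 0, 2], by decide +kernel, by decide +kernel⟩

theorem step15 : Elem
    ⟨4, !![1, 2, 3, 0; 2, 0, 4, 3; 1, 0, 1, 1; 0, 1, 2, 0]⟩
    ⟨5, !![0, 0, 2, 2, 3; 0, 0, 0, 1, 1; 2, 2, 1, 0, 3; 1, 1, 0, 0, 2; 0, 0, 1, 1, 1]⟩ :=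
  ⟨!![0, 0, 1, 0, 0; 1, 1, 0, 0, 0; 0, 0, 0, 0, 1; 0, 0, 0, 1, 0],
    !![2, 0, 3, 2; 0, 0, 1, 1; 1, 2, 3, 0; 0, 1, 2, 0; 1, 0, 1, 1], by decide +kernel, by decide +kernel⟩

theorem step16 : Elem
    ⟨5, !![0, 0, 2, 2, 3; 0, 0, 0, 1, 1; 2, 2, 1, 0, 3; 1, 1, 0, 0, 2; 0, 0, 1, 1, 1]⟩
    ⟨5, !![0, 1, 0, 0, 1; 0, 1, 0, 1, 1; 0, 2, 0, 2, 1; 4, 3, 2, 1, 0; 2, 2, 1, 0, 0]⟩ :=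
  ⟨!![1, 0, 1, 0, 0; 1, 0, 0, 0, 0; 0, 0, 0, 1, 0; 0, 0, 0, 0, 1; 0, 1, 0, 0, 0],
    !![0, 0, 0, 1, 1; 0, 0, 1, 1, 1; 0, 0, 2, 1, 2; 2, 2, 1, 0, 3; 1, 1, 0, 0, 2], by decide +kernel, by decide +kernel⟩

theorem step17 : Elem
    ⟨5, !![0, 1, 0, 0, 1; 0, 1, 0, 1, 1; 0, 2, 0, 2, 1; 4, 3, 2, 1, 0; 2, 2, 1, 0, 0]⟩
    ⟨5, !![1, 1, 0, 1, 0; 0, 0, 1, 0, 0; 7, 3, 1, 0, 2; 4, 2, 0, 0, 1; 2, 2, 2, 1, 0]⟩ :=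
  ⟨!![1, 0, 0, 0, 0; 1, 1, 0, 0, 0; 0, 0, 0, 0, 1; 0, 0, 1, 0, 0; 0, 0, 0, 1, 0],
    !![0, 1, 0, 0, 1; 0, 0, 0, 1, 0; 4, 3, 2, 1, 0; 2, 2, 1, 0, 0; 0, 2, 0, 2, 1], by decide +kernel, by decide +kernel⟩

theorem step18 : Elem
    ⟨5, !![1, 1, 0, 1, 0; 0, 0, 1, 0, 0; 7, 3, 1, 0, 2; 4, 2, 0, 0, 1; 2, 2, 2, 1, 0]⟩
    ⟨5, !![1, 3, 2, 0, 7; 1, 0, 0, 0, 0; 2, 1, 0, 1, 2; 1, 2, 1, 0, 4; 0, 0, 0, 1, 1]⟩ :=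
  ⟨!![0, 0, 0, 1, 1; 1, 0, 0, 0, 0; 1, 3, 2, 0, 7; 0, 2, 1, 0, 4; 2, 1, 0, 1, 2],
    !![0, 0, 1, 0, 0; 0, 1, 0, 0, 0; 0, 0, 0, 0, 1; 0, 1, 0, 1, 0; 1, 0, 0, 0, 0], by decide +kernel, by decide +kernel⟩

theorem step19 : Elem
    ⟨5, !![1, 3, 2, 0, 7; 1, 0, 0, 0, 0; 2, 1, 0, 1, 2; 1, 2, 1, 0, 4; 0, 0, 0, 1, 1]⟩
    ⟨5, !![0, 2, 2, 3, 1; 1, 0, 3, 0, 1; 0, 0, 1, 1, 0; 1, 1, 4, 1, 2; 0, 1, 0, 1, 0]⟩ :=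
  ⟨!![0, 1, 0, 1, 0; 0, 0, 0, 0, 1; 1, 0, 0, 0, 0; 0, 0, 0, 1, 0; 0, 0, 1, 0, 0],
    !![2, 1, 0, 1, 2; 0, 1, 1, 0, 3; 0, 0, 0, 1, 1; 1, 2, 1, 0, 4; 1, 0, 0, 0, 0], by decide +kernel, by decide +kernel⟩

theorem step20 : Elem
    ⟨5, !![0, 2, 2, 3, 1; 1, 0, 3, 0, 1; 0, 0, 1, 1, 0; 1, 1, 4, 1, 2; 0, 1, 0, 1, 0]⟩
    ⟨5, !![0, 4, 2, 3, 1; 1, 1, 4, 1, 1; 0, 1, 1, 0, 0; 1, 0, 3, 0, 0; 0, 1, 0, 1, 0]⟩ :=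
  ⟨!![0, 3, 2, 2, 1; 1, 0, 3, 0, 0; 0, 1, 1, 0, 0; 1, 1, 4, 1, 1; 0, 1, 0, 1, 0],
    !![1, 0, 0, 0, 1; 0, 0, 0, 1, 0; 0, 0, 1, 0, 0; 0, 1, 0, 0, 0; 0, 0, 0, 0, 1], by decide +kernel, by decide +kernel⟩

theorem step21 : Elem
    ⟨5, !![0, 4, 2, 3, 1; 1, 1, 4, 1, 1; 0, 1, 1, 0, 0; 1, 0, 3, 0, 0; 0, 1, 0, 1, 0]⟩
    ⟨5, !![0, 0, 1, 0, 3; 1, 0, 1, 1, 3; 2, 1, 0, 4, 2; 0, 1, 1, 1, 4; 0, 0, 0, 1, 1]⟩ :=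
  ⟨!![2, 1, 0, 4, 2; 0, 1, 1, 1, 4; 0, 0, 0, 1, 1; 0, 0, 1, 0, 3; 1, 0, 0, 1, 0],
    !![0, 0, 0, 1, 0; 0, 0, 0, 1, 1; 1, 0, 0, 0, 0; 0, 1, 0, 0, 0; 0, 0, 1, 0, 0], by decide +kernel, by decide +kernel⟩

theorem step22 : Elem
    ⟨5, !![0, 0, 1, 0, 3; 1, 0, 1, 1, 3; 2, 1, 0, 4, 2; 0, 1, 1, 1, 4; 0, 0, 0, 1, 1]⟩
    ⟨5, !![0, 1, 4, 2, 0; 1, 0, 1, 1, 2; 1, 1, 1, 0, 4; 1, 0, 1, 0, 4; 0, 0, 1, 0, 1]⟩ :=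
  ⟨!![1, 0, 0, 0, 3; 1, 0, 1, 1, 2; 0, 1, 4, 2, 0; 1, 1, 1, 0, 4; 0, 0, 1, 0, 1],
    !![0, 0, 1, 0, 0; 0, 1, 0, 0, 0; 0, 0, 0, 1, 0; 1, 0, 0, 0, 1; 0, 0, 0, 0, 1], by decide +kernel, by decide +kernel⟩

theorem step23 : Elem
    ⟨5, !![0, 1, 4, 2, 0; 1, 0, 1, 1, 2; 1, 1, 1, 0, 4; 1, 0, 1, 0, 4; 0, 0, 1, 0, 1]⟩
    ⟨5, !![0, 2, 1, 1, 2; 0, 1, 1, 1, 4; 1, 0, 0, 0, 0; 1, 6, 4, 0, 0; 0, 1, 1, 0, 1]⟩ :=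
  ⟨!![0, 0, 0, 1, 0; 1, 0, 0, 0, 0; 0, 1, 1, 0, 0; 0, 1, 0, 0, 0; 0, 0, 0, 0, 1],
    !![1, 0, 1, 1, 2; 1, 0, 1, 0, 4; 0, 1, 0, 0, 0; 0, 1, 4, 2, 0; 0, 0, 1, 0, 1], by decide +kernel, by decide +kernel⟩

theorem step24 : Elem
    ⟨5, !![0, 2, 1, 1, 2; 0, 1, 1, 1, 4; 1, 0, 0, 0, 0; 1, 6, 4, 0, 0; 0, 1, 1, 0, 1]⟩
    ⟨5, !![0, 2, 1, 1, 1; 0, 1, 1, 1, 0; 0, 4, 0, 1, 1; 1, 0, 0, 0, 0; 1, 4, 6, 5, 1]⟩ :=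
  ⟨!![0, 2, 1, 1, 1; 0, 4, 0, 1, 1; 1, 0, 0, 0, 0; 1, 0, 6, 4, 0; 0, 1, 1, 1, 0],
    !![1, 0, 0, 0, 0; 0, 0, 0, 0, 1; 0, 1, 0, 0, 0; 0, 0, 1, 0, 0; 0, 1, 0, 1, 0], by decide +kernel, by decide +kernel⟩

theorem step25 : Elem
    ⟨5, !![0, 2, 1, 1, 1; 0, 1, 1, 1, 0; 0, 4, 0, 1, 1; 1, 0, 0, 0, 0; 1, 4, 6, 5, 1]⟩
    ⟨5, !![0, 0, 1, 5, 1; 1, 0, 1, 3, 1; 0, 1, 0, 0, 0; 1, 0, 1, 1, 0; 5, 1, 4, 4, 1]⟩ :=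
  ⟨!![0, 1, 0, 0, 0; 0, 0, 0, 1, 0; 1, 0, 0, 0, 0; 0, 0, 1, 0, 0; 0, 0, 0, 1, 1],
    !![0, 4, 0, 1, 1; 0, 2, 1, 1, 1; 1, 0, 0, 0, 0; 0, 1, 1, 1, 0; 1, 3, 5, 4, 1], by decide +kernel, by decide +kernel⟩

theorem step26 : Elem
    ⟨5, !![0, 0, 1, 5, 1; 1, 0, 1, 3, 1; 0, 1, 0, 0, 0; 1, 0, 1, 1, 0; 5, 1, 4, 4, 1]⟩
    ⟨5, !![0, 1, 0, 1, 0; 4, 0, 0, 1, 1; 2, 1, 0, 1, 1; 0, 1, 1, 1, 0; 0, 5, 1, 4, 1]⟩ :=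
  ⟨!![4, 0, 0, 1, 1; 2, 1, 0, 1, 1; 0, 0, 1, 0, 0; 0, 1, 0, 1, 0; 0, 5, 1, 4, 1],
    !![0, 0, 0, 1, 0; 1, 0, 0, 0, 0; 0, 1, 0, 0, 0; 0, 0, 1, 1, 0; 0, 0, 0, 0, 1], by decide +kernel, by decide +kernel⟩

theorem step27 : Elem
    ⟨5, !![0, 1, 0, 1, 0; 4, 0, 0, 1, 1; 2, 1, 0, 1, 1; 0, 1, 1, 1, 0; 0, 5, 1, 4, 1]⟩
    ⟨5, !![0, 0, 1, 1, 0; 2, 0, 2, 1, 1; 0, 1, 1, 1, 0; 4, 0, 2, 0, 1; 0, 0, 4, 4, 1]⟩ :=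
  ⟨!![1, 0, 0, 0, 0; 0, 0, 0, 1, 0; 0, 1, 0, 0, 0; 0, 0, 1, 0, 0; 0, 0, 1, 0, 1],
    !![0, 1, 0, 1, 0; 2, 1, 0, 1, 1; 0, 1, 1, 1, 0; 4, 0, 0, 1, 1; 0, 4, 0, 3, 1], by decide +kernel, by decide +kernel⟩

theorem step28 : Elem
    ⟨5, !![0, 0, 1, 1, 0; 2, 0, 2, 1, 1; 0, 1, 1, 1, 0; 4, 0, 2, 0, 1; 0, 0, 4, 4, 1]⟩
    ⟨5, !![1, 1, 4, 1, 2; 1, 0, 2, 1, 1; 1, 0, 0, 0, 0; 4, 0, 0, 1, 0; 1, 1, 0, 0, 0]⟩ :=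
  ⟨!![1, 0, 0, 0, 0; 1, 0, 2, 1, 1; 1, 1, 0, 0, 0; 0, 0, 4, 1, 2; 4, 0, 0, 1, 0],
    !![0, 0, 1, 1, 0; 0, 1, 0, 0, 0; 1, 0, 0, 0, 0; 0, 0, 0, 0, 1; 0, 0, 1, 0, 0], by decide +kernel, by decide +kernel⟩

theorem step29 : Elem
    ⟨5, !![1, 1, 4, 1, 2; 1, 0, 2, 1, 1; 1, 0, 0, 0, 0; 4, 0, 0, 1, 0; 1, 1, 0, 0, 0]⟩
    ⟨5, !![0, 2, 0, 1, 0; 2, 1, 1, 1, 2; 0, 4, 1, 0, 0; 1, 1, 1, 0, 1; 0, 1, 0, 0, 0]⟩ :=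
  ⟨!![2, 1, 1, 1, 2; 1, 1, 1, 0, 1; 0, 1, 0, 0, 0; 0, 4, 1, 0, 0; 0, 1, 0, 1, 0],
    !![0, 0, 1, 0, 1; 1, 0, 0, 0, 0; 0, 0, 0, 1, 0; 0, 1, 0, 0, 0; 0, 0, 1, 0, 0], by decide +kernel, by decide +kernel⟩

theorem step30 : Elem
    ⟨5, !![0, 2, 0, 1, 0; 2, 1, 1, 1, 2; 0, 4, 1, 0, 0; 1, 1, 1, 0, 1; 0, 1, 0, 0, 0]⟩
    ⟨4, !![0, 1, 1, 1; 1, 1, 1, 2; 0, 4, 1, 0; 1, 3, 0, 0]⟩ :=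
  ⟨!![1, 2, 0, 0; 1, 1, 1, 2; 0, 4, 1, 0; 0, 1, 1, 1; 0, 1, 0, 0],
    !![0, 0, 0, 1, 0; 0, 1, 0, 0, 0; 0, 0, 1, 0, 0; 1, 0, 0, 0, 1], by decide +kernel, by decide +kernel⟩

theorem step31 : Elem
    ⟨4, !![0, 1, 1, 1; 1, 1, 1, 2; 0, 4, 1, 0; 1, 3, 0, 0]⟩
    ⟨4, !![1, 1, 1, 1; 4, 0, 3, 0; 1, 1, 0, 0; 4, 0, 4, 1]⟩ :=
  ⟨!![1, 0, 0, 0; 1, 0, 1, 0; 0, 0, 0, 1; 0, 1, 0, 0],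
    !![0, 1, 1, 1; 1, 3, 0, 0; 1, 0, 0, 1; 0, 4, 1, 0], by decide +kernel, by decide +kernel⟩

theorem step32 : Elem
    ⟨4, !![1, 1, 1, 1; 4, 0, 3, 0; 1, 1, 0, 0; 4, 0, 4, 1]⟩
    ⟨4, !![1, 1, 0, 1; 7, 0, 0, 4; 8, 0, 1, 4; 1, 0, 1, 0]⟩ :=
  ⟨!![1, 0, 0, 1; 0, 1, 0, 0; 1, 0, 0, 0; 0, 0, 1, 0],
    !![1, 1, 0, 0; 4, 0, 3, 0; 4, 0, 4, 1; 0, 0, 1, 1], by decide +kernel, by decide +kernel⟩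

theorem step33 : Elem
    ⟨4, !![1, 1, 0, 1; 7, 0, 0, 4; 8, 0, 1, 4; 1, 0, 1, 0]⟩
    ⟨4, !![1, 4, 0, 8; 1, 0, 0, 1; 1, 4, 0, 8; 0, 0, 1, 1]⟩ :=
  ⟨!![0, 0, 1, 1; 0, 4, 0, 7; 1, 4, 0, 8; 1, 0, 0, 1],
    !![0, 0, 1, 0; 0, 0, 0, 1; 0, 1, 0, 1; 1, 0, 0, 0], by decide +kernel, by decide +kernel⟩

theorem step34 : Elem
    ⟨4, !![1, 4, 0, 8; 1, 0, 0, 1; 1, 4, 0, 8; 0, 0, 1, 1]⟩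
    ⟨3, !![1, 1, 0; 8, 1, 4; 1, 1, 0]⟩ :=
  ⟨!![0, 1, 0; 0, 0, 1; 0, 1, 0; 1, 0, 0],
    !![0, 0, 1, 1; 1, 4, 0, 8; 1, 0, 0, 1], by decide +kernel, by decide +kernel⟩

theorem step35 : Elem
    ⟨3, !![1, 1, 0; 8, 1, 4; 1, 1, 0]⟩
    ⟨2, !![1, 12; 1, 1]⟩ :=
  ⟨!![0, 1; 1, 0; 0, 1],
    !![8, 1, 4; 1, 1, 0], by decide +kernel, by decide +kernel⟩

/-- `[[1, 4], [3, 1]]` and `[[1, 12], [1, 1]]` are strong shift equivalent over `ℤ⁺`. -/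
theorem result : SSE !![1, 4; 3, 1] !![1, 12; 1, 1] :=
  (Relation.TransGen.single step1)
    |>.tail step2
    |>.tail step3
    |>.tail step4
    |>.tail step5
    |>.tail step6
    |>.tail step7
    |>.tail step8
    |>.tail step9
    |>.tail step10
    |>.tail step11
    |>.tail step12
    |>.tail step13
    |>.tail step14
    |>.tail step15
    |>.tail step16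
    |>.tail step17
    |>.tail step18
    |>.tail step19
    |>.tail step20
    |>.tail step21
    |>.tail step22
    |>.tail step23
    |>.tail step24
    |>.tail step25
    |>.tail step26
    |>.tail step27
    |>.tail step28
    |>.tail step29
    |>.tail step30
    |>.tail step31
    |>.tail step32
    |>.tail step33
    |>.tail step34
    |>.tail step35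

end Pool.Agent.Results.MP_993212_an.OpenTestPair
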