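import Pool.Agent.TH441.SSE2.Transfer

/-!
# MP_993212_an: `2 × 2` matrices with `0 < -det ≤ tr² / 10` similar over `ℤ` are strong shift
equivalent
-/

set_option autoImplicit false

namespace Pool.Agent.Results.MP_993212_an.TwoByTwoQuadratic

open Matrix Pool.Agent.TH441.SSE2

/-- Elementary equivalence of square matrices over `ℕ`: `A = R S`, `B = S R` for rectangular
matrices `R`, `S` over `ℕ`. -/
def Elem (X Y : Σ n : ℕ, Matrix (Fin n) (Fin n) ℕ) : Prop :=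
  ∃ (R : Matrix (Fin X.1) (Fin Y.1) ℕ) (S : Matrix (Fin Y.1) (Fin X.1) ℕ),
    X.2 = R * S ∧ Y.2 = S * R

/-- Strong shift equivalence over `ℕ` (a finite chain of elementary equivalences). -/
def SSE {n m : ℕ} (A : Matrix (Fin n) (Fin n) ℕ) (B : Matrix (Fin m) (Fin m) ℕ) : Prop :=
  Relation.TransGen Elem ⟨n, A⟩ ⟨m, B⟩

lemma sse_of_Q {n m : ℕ} (A : Matrix (Fin n) (Fin n) ℕ) (B : Matrix (Fin m) (Fin m) ℕ)
    (h : Q (A.map (Nat.cast : ℕ → ℤ)) (B.map (Nat.cast : ℕ → ℤ))) : SSE A B := by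
  have h1 := chain_toN (r := Elem) (fun n m R S => ⟨R, S, rfl, rfl⟩) h
  have e : ∀ {k : ℕ} (C : Matrix (Fin k) (Fin k) ℕ),
      toN ⟨k, C.map (Nat.cast : ℕ → ℤ)⟩ = ⟨k, C⟩ := by
    intro k C
    have h2 : (C.map (Nat.cast : ℕ → ℤ)).map Int.toNat = C := by
      ext i j
      simp
    unfold toN
    rw [h2]
  rw [e, e] at h1
  refine Relation.TransGen.head' (b := ⟨n, A⟩) ?_ h1
  exact ⟨A, 1, by simp, by simp⟩

theorem result (A B : Matrix (Fin 2) (Fin 2) ℕ) (U : Matrix (Fin 2) (Fin 2) ℤ)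
    (hU : IsUnit U.det) (hAB : U * A.map (Nat.cast : ℕ → ℤ) = B.map (Nat.cast : ℕ → ℤ) * U)
    (hneg : (A.map (Nat.cast : ℕ → ℤ)).det < 0)
    (hquad : -10 * (A.map (Nat.cast : ℕ → ℤ)).det ≤ (A.map (Nat.cast : ℕ → ℤ)).trace ^ 2) :
    SSE A B := by
  apply sse_of_Q
  obtain ⟨A', hA'⟩ : ∃ A', A' = A.map (Nat.cast : ℕ → ℤ) := ⟨_, rfl⟩
  obtain ⟨B', hB'⟩ : ∃ B', B' = B.map (Nat.cast : ℕ → ℤ) := ⟨_, rfl⟩
  have hAn : ∀ i j, 0 ≤ A' i j := fun i j => by rw [hA']; simp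
  have hBn : ∀ i j, 0 ≤ B' i j := fun i j => by rw [hB']; simp
  rw [← hA'] at hAB hneg hquad ⊢
  rw [← hB'] at hAB ⊢
  have hdetB : B'.det = A'.det := by
    have h := congrArg Matrix.det hAB
    rw [Matrix.det_mul, Matrix.det_mul, mul_comm] at h
    exact (mul_right_cancel₀ hU.ne_zero h).symm
  have hAeq : A' = !![A' 0 0, A' 0 1; A' 1 0, A' 1 1] := by
    ext i j; fin_cases i <;> fin_cases j <;> rfl
  have hBeq : B' = !![B' 0 0, B' 0 1; B' 1 0, B' 1 1] := by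
    ext i j; fin_cases i <;> fin_cases j <;> rfl
  have hUdet : U 0 0 * U 1 1 - U 0 1 * U 1 0 = 1 ∨ U 0 0 * U 1 1 - U 0 1 * U 1 0 = -1 := by
    rw [← Matrix.det_fin_two]
    exact Int.isUnit_iff.mp hU
  have k00 := congrFun (congrFun hAB 0) 0
  have k01 := congrFun (congrFun hAB 0) 1
  have k10 := congrFun (congrFun hAB 1) 0
  have k11 := congrFun (congrFun hAB 1) 1
  simp only [Matrix.mul_apply, Fin.sum_univ_two] at k00 k01 k10 k11
  have hdA := hneg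
  rw [Matrix.det_fin_two] at hdA
  have hdB := hneg
  rw [← hdetB, Matrix.det_fin_two] at hdB
  rw [Matrix.det_fin_two, Matrix.trace_fin_two] at hquad
  have hAd := mul_nonneg (hAn 0 0) (hAn 1 1)
  have hBd := mul_nonneg (hBn 0 0) (hBn 1 1)
  have hA01 : 0 < A' 0 1 := by
    rcases (hAn 0 1).lt_or_eq with h | h
    · exact h
    · rw [← h] at hdA; linarith
  have hA10 : 0 < A' 1 0 := by
    rcases (hAn 1 0).lt_or_eq with h | h
    · exact h
    · rw [← h] at hdA; linarith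
  have hB01 : 0 < B' 0 1 := by
    rcases (hBn 0 1).lt_or_eq with h | h
    · exact h
    · rw [← h] at hdB; linarith
  have hB10 : 0 < B' 1 0 := by
    rcases (hBn 1 0).lt_or_eq with h | h
    · exact h
    · rw [← h] at hdB; linarith
  have hTA : 0 < A' 0 0 + A' 1 1 := by
    rcases (add_nonneg (hAn 0 0) (hAn 1 1)).lt_or_eq with h | h
    · exact h
    · rw [← h] at hquad; linarith
  have htr : B' 0 0 + B' 1 1 = A' 0 0 + A' 1 1 := by
    have h : (B' 0 0 + B' 1 1) * (U 0 0 * U 1 1 - U 0 1 * U 1 0) =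
        (A' 0 0 + A' 1 1) * (U 0 0 * U 1 1 - U 0 1 * U 1 0) := by
      linear_combination -(U 1 1 * k00) + U 1 0 * k01 + U 0 1 * k10 - U 0 0 * k11
    rcases hUdet with h' | h' <;> rw [h'] at h <;> linarith
  rw [Matrix.det_fin_two, Matrix.det_fin_two] at hdetB
  rw [hAeq, hBeq]
  exact (similar_core (U 0 0) (U 0 1) (U 1 0) (U 1 1) (B' 0 0) (B' 0 1) (B' 1 0) (B' 1 1)
    (A' 0 0) (A' 0 1) (A' 1 0) (A' 1 1) (hBn 0 0) hB01 hB10 (hBn 1 1) (hAn 0 0) hA01 hA10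
    (hAn 1 1) (by rw [htr]; exact hTA) (by linarith) (by rw [htr]; linarith) hUdet
    k00.symm k01.symm k10.symm k11.symm).symm

end Pool.Agent.Results.MP_993212_an.TwoByTwoQuadratic
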